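import Pool.Agent.V5helper50.RS.Stm

/-! Project RS, job MA: the conditional mean. -/

set_option autoImplicit false

open Finset

namespace Pool.Agent.V5helper76.RS

open Pool.Agent.V5helper50.RS

theorem Tk_mono (k : ℕ) {y x : ℕ} (h : y ≤ x) : Tk k y ≤ Tk k x := by
  unfold Tk
  exact max_le_max le_rfl (Nat.mul_le_mul_left _ (Nat.pow_le_pow_left h _))

/-- the values at `y < x` do not change -/
theorem R_update (k Q : ℕ) (t : ℕ → ℕ) (x v j u : ℕ) :
    R k Q (Function.update t x v) j x u = R k Q t j x u := by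
  unfold R
  congr 1
  refine Finset.filter_congr fun y hy => ?_
  rw [Fintype.mem_piFinset] at hy
  have : ∀ i, a k Q (Function.update t x v) (y i) = a k Q t (y i) := by
    intro i
    unfold a
    rw [Function.update_of_ne (mem_range.1 (hy i)).ne]
  simp only [this]

/-- one value of `i` -/
theorem sum_le_w (k Q j u x i : ℕ) (hQ : 1 ≤ Q) (hi : 1 ≤ i) (hij : i ≤ j) (t : ℕ → ℕ)
    (ht : ∀ y, t y < Tk k y) :
    ∑ v ∈ range (Tk k x), (if i * (x ^ k + Q * v) ≤ u then
      R k Q t (j - i) x (u - i * (x ^ k + Q * v)) else 0) ≤ w k Q j u i x := by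
  classical
  set S : ℕ → Finset (Fin (j - i) → ℕ) := fun v =>
    (Fintype.piFinset fun _ : Fin (j - i) => range x).filter (fun y =>
      ∑ l, a k Q t (y l) + i * (x ^ k + Q * v) = u) with hS
  have h1 : ∀ v ∈ range (Tk k x), (if i * (x ^ k + Q * v) ≤ u then
      R k Q t (j - i) x (u - i * (x ^ k + Q * v)) else 0) = (S v).card := by
    intro v _
    split_ifs with h
    · unfold R
      rw [hS]
      dsimp only
      congr 1
      refine Finset.filter_congr fun y _ => ?_
      omega
    · rw [eq_comm, card_eq_zero, hS]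
      dsimp only
      rw [filter_eq_empty_iff]
      intro y _ h2
      omega
  rw [Finset.sum_congr rfl h1, ← card_biUnion]
  · unfold w
    refine card_le_card fun y hy => ?_
    rw [mem_biUnion] at hy
    obtain ⟨v, hv, hy⟩ := hy
    rw [hS] at hy
    dsimp only at hy
    rw [mem_filter] at hy ⊢
    obtain ⟨hy1, hy2⟩ := hy
    refine ⟨hy1, ?_⟩
    rw [Fintype.mem_piFinset] at hy1
    have e1 : ∑ l, a k Q t (y l) = ∑ l, y l ^ k + Q * ∑ l, t (y l) := by
      unfold a
      rw [Finset.sum_add_distrib, Finset.mul_sum]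
    have e2 : u = (∑ l, y l ^ k + i * x ^ k) + Q * (∑ l, t (y l) + i * v) := by
      rw [← hy2, e1]; ring
    refine ⟨?_, ?_, ?_⟩
    · conv_rhs => rw [e2]
      rw [Nat.add_mul_mod_self_left]
    · rw [e2]; exact Nat.le_add_right _ _
    · conv_lhs => rw [e2]
      refine Nat.add_lt_add_left ?_ _
      have hT : 1 ≤ Tk k x := Tk_pos k x
      have b1 : ∑ l, t (y l) ≤ (j - i) * (Tk k x - 1) := by
        calc ∑ l, t (y l) ≤ ∑ _l : Fin (j - i), (Tk k x - 1) := by
              refine Finset.sum_le_sum fun l _ => ?_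
              have c1 := ht (y l)
              have c2 := Tk_mono k (mem_range.1 (hy1 l)).le
              omega
          _ = (j - i) * (Tk k x - 1) := by simp
      have b2 : i * v ≤ i * (Tk k x - 1) := by
        refine Nat.mul_le_mul_left _ ?_
        rw [mem_range] at hv
        omega
      have b3 : ∑ l, t (y l) + i * v ≤ j * (Tk k x - 1) := by
        calc ∑ l, t (y l) + i * v ≤ (j - i) * (Tk k x - 1) + i * (Tk k x - 1) := by omega
          _ = j * (Tk k x - 1) := by rw [← Nat.add_mul]; congr 1; omega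
      calc Q * (∑ l, t (y l) + i * v) ≤ Q * (j * (Tk k x - 1)) := Nat.mul_le_mul_left _ b3
        _ < Q * (j * Tk k x) := by
            refine Nat.mul_lt_mul_of_pos_left ?_ (by omega)
            refine Nat.mul_lt_mul_of_pos_left ?_ (by omega)
            omega
        _ = j * Q * Tk k x := by ring
  · intro v _ v' _ hvv
    rw [Function.onFun, disjoint_left]
    intro y hy hy'
    rw [hS] at hy hy'
    dsimp only at hy hy'
    rw [mem_filter] at hy hy'
    apply hvv
    have h2 : i * (x ^ k + Q * v) = i * (x ^ k + Q * v') := by omega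
    have h3 := Nat.eq_of_mul_eq_mul_left (by omega) h2
    have h4 : Q * v = Q * v' := by omega
    exact Nat.eq_of_mul_eq_mul_left (by omega) h4

theorem t_MA : S_MA := by
  intro k Q j u x _ hQ _ t ht
  unfold m
  refine div_le_div_of_nonneg_right ?_ (Nat.cast_nonneg _)
  unfold F
  rw [Finset.sum_comm]
  refine Finset.sum_le_sum fun i hi => ?_
  rw [mem_Icc] at hi
  rw [← Finset.mul_sum]
  refine mul_le_mul_of_nonneg_left ?_ (Nat.cast_nonneg _)
  have h := sum_le_w k Q j u x i hQ hi.1 hi.2 t ht
  refine le_trans (le_of_eq ?_) (Nat.cast_le.2 h)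
  push_cast
  refine Finset.sum_congr rfl fun v _ => ?_
  have e1 : a k Q (Function.update t x v) x = x ^ k + Q * v := by
    unfold a
    rw [Function.update_self]
  rw [e1, R_update]

end Pool.Agent.V5helper76.RS
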