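import Pool.Agent.V5helper50.RS.Stm

/-! Project RS, job RES: sums of functions of the residues. -/

set_option autoImplicit false

open Finset

namespace Pool.Agent.V5helper76.RS

open Pool.Agent.V5helper50.RS

/-- fibering over the residues -/
theorem fiber_sum (Q j : ℕ) (G : (Fin j → ℕ) → ℕ) (hQ : 1 ≤ Q) (S : Finset ℕ) :
    ∑ x ∈ Fintype.piFinset (fun _ : Fin j => S), G (fun l => x l % Q) =
      ∑ y ∈ Fintype.piFinset (fun _ : Fin j => range Q),
        (∏ l, (S.filter (fun s => s % Q = y l)).card) * G y := by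
  classical
  have hmaps : ∀ x ∈ Fintype.piFinset (fun _ : Fin j => S),
      (fun l => x l % Q) ∈ Fintype.piFinset (fun _ : Fin j => range Q) := by
    intro x _
    rw [Fintype.mem_piFinset]
    intro l
    rw [mem_range]
    exact Nat.mod_lt _ (by omega)
  rw [← Finset.sum_fiberwise_of_maps_to hmaps]
  refine Finset.sum_congr rfl fun y _ => ?_
  rw [Finset.sum_congr rfl (g := fun _ => G y)]
  · rw [Finset.sum_const, smul_eq_mul]
    congr 1
    rw [← Fintype.card_piFinset]
    congr 1
    ext x
    simp only [mem_filter, Fintype.mem_piFinset, funext_iff]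
    constructor
    · rintro ⟨h1, h2⟩ l
      exact ⟨h1 l, h2 l⟩
    · intro h
      exact ⟨fun l => (h l).1, fun l => (h l).2⟩
  · intro x hx
    rw [mem_filter] at hx
    rw [hx.2]

theorem card_range_mod (Q n r : ℕ) :
    ((range n).filter (fun s => s % Q = r)).card ≤ n / Q + 1 := by
  refine le_trans (card_le_card_of_injOn (t := range (n / Q + 1)) (fun s => s / Q) ?_ ?_) ?_
  · intro s hs
    rw [mem_coe, mem_filter, mem_range] at hs
    rw [mem_coe, mem_range]
    have := Nat.div_le_div_right (c := Q) hs.1.le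
    exact Nat.lt_succ_of_le this
  · intro s hs s' hs' h
    rw [mem_coe, mem_filter] at hs hs'
    dsimp only at h
    rw [← Nat.div_add_mod s Q, ← Nat.div_add_mod s' Q, h, hs.2, hs'.2]
  · rw [card_range]

theorem card_Ioc_mod (Q e r : ℕ) (hQ : 1 ≤ Q) (hr : r < Q) :
    e / Q ≤ ((Ioc e (2 * e)).filter (fun s => s % Q = r)).card := by
  conv_lhs => rw [← card_range (e / Q)]
  refine card_le_card_of_injOn (fun i => Q * (i + ((e - r) / Q + 1)) + r) ?_ ?_
  · intro i hi
    rw [mem_coe, mem_range] at hi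
    rw [mem_coe, mem_filter, mem_Ioc]
    have h1 : Q * (i + 1) ≤ e := le_trans (Nat.mul_le_mul_left _ hi) (Nat.mul_div_le _ _)
    have h2 : Q * ((e - r) / Q) ≤ e - r := Nat.mul_div_le _ _
    have h3 : e - r < Q * ((e - r) / Q) + Q := by
      have := Nat.div_add_mod (e - r) Q
      have := Nat.mod_lt (e - r) (show 0 < Q by omega)
      omega
    have h4 : Q * (i + ((e - r) / Q + 1)) = Q * i + Q * ((e - r) / Q) + Q := by ring
    have h5 : Q * (i + 1) = Q * i + Q := by ring
    dsimp only
    refine ⟨⟨by omega, by omega⟩, ?_⟩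
    rw [Nat.mul_add_mod, Nat.mod_eq_of_lt hr]
  · intro i _ i' _ h
    dsimp only at h
    have h1 : Q * (i + ((e - r) / Q + 1)) = Q * (i' + ((e - r) / Q + 1)) := by omega
    have := Nat.eq_of_mul_eq_mul_left (by omega) h1
    omega

theorem t_RES : S_RES := by
  intro Q j G hQ
  refine ⟨fun n => ?_, fun e => ?_⟩
  · rw [fiber_sum Q j G hQ, Finset.mul_sum]
    refine Finset.sum_le_sum fun y _ => ?_
    refine Nat.mul_le_mul_right _ ?_
    calc ∏ l, ((range n).filter (fun s => s % Q = y l)).card ≤ ∏ _l : Fin j, (n / Q + 1) :=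
          Finset.prod_le_prod' fun l _ => card_range_mod Q n (y l)
      _ = (n / Q + 1) ^ j := by rw [prod_const, card_univ, Fintype.card_fin]
  · rw [fiber_sum Q j G hQ, Finset.mul_sum]
    refine Finset.sum_le_sum fun y hy => ?_
    rw [Fintype.mem_piFinset] at hy
    refine Nat.mul_le_mul_right _ ?_
    calc (e / Q) ^ j = ∏ _l : Fin j, (e / Q) := by rw [prod_const, card_univ, Fintype.card_fin]
      _ ≤ ∏ l, ((Ioc e (2 * e)).filter (fun s => s % Q = y l)).card :=
          Finset.prod_le_prod' fun l _ => card_Ioc_mod Q e (y l) hQ (mem_range.1 (hy l))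

end Pool.Agent.V5helper76.RS
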